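import Pool.Agent.LPR.Stmts

/-!
# Squad LPR, row CHI: existence of the pieces
-/

set_option autoImplicit false

open Set Topology
open scoped BigOperators

namespace Pool.Agent.LPR.H81

open Pool.Agent.LSG Pool.Agent.LPR

/-- the function comparable to the distance to the complement -/
theorem exists_rho (S : Type) [TopologicalSpace S] [TopologicalSpace.MetrizableSpace S]
    (O : Set (S × unitInterval)) (hO : IsOpen O) :
    ∃ ρ : C(S × unitInterval, ℝ), (∀ x, 0 ≤ ρ x ∧ ρ x ≤ 1) ∧ (∀ x, ρ x ≠ 0 ↔ x ∈ O) ∧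
      ∀ (s : S) (t t' : unitInterval), |ρ (s, t) - ρ (s, t')| ≤ |(t : ℝ) - t'| := by
  by_cases hne : (Oᶜ).Nonempty
  · let _ : MetricSpace S := TopologicalSpace.metrizableSpaceMetric S
    refine ⟨⟨fun x => min 1 (Metric.infDist x Oᶜ),
      continuous_const.min (Metric.continuous_infDist_pt _)⟩, ?_, ?_, ?_⟩
    · intro x
      exact ⟨le_min zero_le_one Metric.infDist_nonneg, min_le_left _ _⟩
    · intro x
      show min 1 (Metric.infDist x Oᶜ) ≠ 0 ↔ x ∈ O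
      constructor
      · intro h
        by_contra hx
        apply h
        have h0 : Metric.infDist x Oᶜ = 0 := Metric.infDist_zero_of_mem hx
        rw [h0]
        exact min_eq_right zero_le_one
      · intro hx
        have h1 : x ∉ Oᶜ := fun h => h hx
        have h2 := (hO.isClosed_compl.notMem_iff_infDist_pos hne).1 h1
        exact (lt_min one_pos h2).ne'
    · intro s t t'
      show |min 1 (Metric.infDist (s, t) Oᶜ) - min 1 (Metric.infDist (s, t') Oᶜ)| ≤ _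
      refine (abs_min_sub_min_le_max _ _ _ _).trans ?_
      have h1 : |(1 : ℝ) - 1| = 0 := by norm_num
      rw [h1, max_eq_right (abs_nonneg _)]
      have h2 := (Metric.lipschitz_infDist_pt (Oᶜ)).dist_le_mul (s, t) (s, t')
      rw [Real.dist_eq, NNReal.coe_one, one_mul, Prod.dist_eq, dist_self,
        max_eq_right dist_nonneg] at h2
      exact h2
  · refine ⟨⟨fun _ => 1, continuous_const⟩, ?_, ?_, ?_⟩
    · intro x
      exact ⟨zero_le_one, le_refl _⟩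
    · intro x
      have hx : x ∈ O := by
        by_contra h
        exact hne ⟨x, h⟩
      exact ⟨fun _ => hx, fun _ => one_ne_zero⟩
    · intro s t t'
      show |(1 : ℝ) - 1| ≤ _
      rw [sub_self, abs_zero]
      exact abs_nonneg _

theorem chi (hat : HatStmt) (bat : BatStmt) : ChiStmt := by
  intro S _ _ O hO
  obtain ⟨ρ, hρ01, hρ0, hρl⟩ := exists_rho S O hO
  obtain ⟨h, h01, hsupp, hcov⟩ := hat
  obtain ⟨B, B01, Bsupp, Bcov⟩ := bat
  refine ⟨ρ, fun m k => ⟨fun x => h m (ρ x) * B m k (x.2 : ℝ),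
    ((h m).continuous.comp ρ.continuous).mul
      ((B m k).continuous.comp (continuous_subtype_val.comp continuous_snd))⟩, ?_⟩
  refine ⟨fun x => (hρ01 x).1, hρ0, hρl, ?_, ?_, ?_⟩
  · intro m k x
    show 0 ≤ h m (ρ x) * B m k (x.2 : ℝ) ∧ h m (ρ x) * B m k (x.2 : ℝ) ≤ 1
    exact ⟨mul_nonneg (h01 m _).1 (B01 m k _).1,
      mul_le_one₀ (h01 m _).2 (B01 m k _).1 (B01 m k _).2⟩
  · intro m k x hx
    have hx' : h m (ρ x) * B m k (x.2 : ℝ) ≠ 0 := hx
    have h1 : h m (ρ x) ≠ 0 := left_ne_zero_of_mul hx'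
    have h2 : B m k (x.2 : ℝ) ≠ 0 := right_ne_zero_of_mul hx'
    obtain ⟨h3, h4⟩ := hsupp m _ h1
    obtain ⟨h5, h6⟩ := Bsupp m k _ x.2.2.1 x.2.2.2 h2
    exact ⟨h5, h3, h4, h6⟩
  · intro x hx
    have hpos : 0 < ρ x := lt_of_le_of_ne (hρ01 x).1 (Ne.symm ((hρ0 x).2 hx))
    obtain ⟨j, hj1, hj2⟩ := hcov (ρ x) hpos (hρ01 x).2
    obtain ⟨p, hp1, hp2⟩ := Bcov j (x.2 : ℝ) x.2.2.1 x.2.2.2
    obtain ⟨q, hq1, hq2⟩ := Bcov (j + 1) (x.2 : ℝ) x.2.2.1 x.2.2.2
    refine ⟨{(j, p), (j, p + 1), (j + 1, q), (j + 1, q + 1)}, Finset.card_le_four, ?_, ?_⟩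
    · intro m k hmk
      have hx' : h m (ρ x) * B m k (x.2 : ℝ) ≠ 0 := hmk
      have h1 : h m (ρ x) ≠ 0 := left_ne_zero_of_mul hx'
      have h2 : B m k (x.2 : ℝ) ≠ 0 := right_ne_zero_of_mul hx'
      rcases hj1 m h1 with rfl | rfl
      · rcases hp1 k h2 with rfl | rfl <;> simp
      · rcases hq1 k h2 with rfl | rfl <;> simp
    · show ∑ α ∈ ({(j, p), (j, p + 1), (j + 1, q), (j + 1, q + 1)} : Finset (ℕ × ℕ)),
        (h α.1 (ρ x) * B α.1 α.2 (x.2 : ℝ)) ^ 2 = 1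
      rw [Finset.sum_insert (by simp), Finset.sum_insert (by simp),
        Finset.sum_insert (by simp), Finset.sum_singleton]
      have e : (h j (ρ x) * B j p (x.2 : ℝ)) ^ 2 + ((h j (ρ x) * B j (p + 1) (x.2 : ℝ)) ^ 2 +
          ((h (j + 1) (ρ x) * B (j + 1) q (x.2 : ℝ)) ^ 2 +
            (h (j + 1) (ρ x) * B (j + 1) (q + 1) (x.2 : ℝ)) ^ 2)) =
          (h j (ρ x)) ^ 2 * ((B j p (x.2 : ℝ)) ^ 2 + (B j (p + 1) (x.2 : ℝ)) ^ 2) +
          (h (j + 1) (ρ x)) ^ 2 * ((B (j + 1) q (x.2 : ℝ)) ^ 2 +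
            (B (j + 1) (q + 1) (x.2 : ℝ)) ^ 2) := by ring
      rw [e, hp2, hq2, mul_one, mul_one]
      exact hj2

end Pool.Agent.LPR.H81
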